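import Pool.Agent.Work.MP_a5655b_lc.AlgOk
import Pool.Agent.Work.MP_a5655b_lc.PTAlg
import Pool.Agent.Work.PolyTime.NPClose

/-!
Supereulerian 2-edge-coloured complete multipartite graphs with at most one part that has more
than one vertex are recognised in polynomial time.

`IsClosedAltTrail`, `Supereulerian` and `OneBigPart` are defined in
`Pool.Agent.Work.MP_a5655b_lc.TrailDefs`, `gr` in `Pool.Agent.Work.MP_a5655b_lc.AlgDefs`,
polynomial-time computability (with the machines `Turing.TM2ComputableInPolyTime` of Mathlib) in
`Pool.Agent.Work.PolyTime.ETR`.
-/

set_option autoImplicit false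

namespace Pool.Agent.Results.MP_a5655b_lc.SplitAlgorithm

open Pool.Agent.Work.PolyTime
open Pool.Agent.Work.MP_a5655b_lc

/-! Encoding of 2-edge-coloured graphs by bit strings. -/

/-- A number is written in unary, `n` as `1010...100`. -/
def encNum : ℕ → List Bool
  | 0 => [false]
  | n + 1 => true :: false :: encNum n

/-- A list of edges is written by writing `1`, `1` and the two ends before each of its elements and
`0` at the end. -/
def encEdges : List (ℕ × ℕ) → List Bool
  | [] => [false]
  | e :: l => true :: ((true :: (encNum e.1 ++ encNum e.2)) ++ encEdges l)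

/-- The bit string of a 2-edge-coloured graph given by the number of vertices, the list of the red
edges and the list of the blue edges. -/
def encGraph (n : ℕ) (R B : List (ℕ × ℕ)) : List Bool :=
  true :: (encNum n ++ (true :: (encEdges R ++ encEdges B)))

/-! The encoding is the one used in the proof. -/

theorem encNum_eq (n : ℕ) : encNum n = (code n).ser := by
  induction n with
  | zero => rfl
  | succ n ih => rw [encNum, ih]; rfl

theorem encEdges_eq (l : List (ℕ × ℕ)) : encEdges l = (code l).ser := by
  induction l with
  | nil => rfl
  | cons e l ih =>
    rw [encEdges, ih, encNum_eq, encNum_eq]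
    rfl

theorem encGraph_eq (n : ℕ) (R B : List (ℕ × ℕ)) : encGraph n R B = (code (n, R, B)).ser := by
  rw [encGraph, encNum_eq, encEdges_eq, encEdges_eq]
  rfl

/-- A test of inputs decided in polynomial time gives a test of words. -/
theorem word_test {t : Inp → Bool} (ht : PTime t) : ∃ f : List Bool → Bool,
    PolyTimeComputable (fun w => [f w]) ∧
    ∀ (n : ℕ) (R B : List (ℕ × ℕ)), f (encGraph n R B) = t (n, R, B) := by
  refine ⟨fun w => ((parseW Inp w).bind fun b => some (t b)).getD false, ?_, ?_⟩
  · refine polyTimeComputable_of_PTime_word ?_
    refine PTime.cons ?_ (PTime.const [])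
    exact PTime.parseTest (t := fun (_ : List Bool) (b : Inp) => t b) PTime.id
      (ht.comp PTime.snd)
  · intro n R B
    simp only [encGraph_eq, parseW_ser, Option.bind_some, Option.getD_some]

/-- **Main theorem.** There is a polynomial-time algorithm that decides for every 2-edge-coloured
complete multipartite graph in which at most one part has more than one vertex whether it is
supereulerian. -/
theorem result :
    ∃ f : List Bool → Bool, PolyTimeComputable (fun w => [f w]) ∧
      ∀ (n : ℕ) (R B : List (ℕ × ℕ)), OneBigPart (gr n R) (gr n B) →
        (f (encGraph n R B) = true ↔ Supereulerian (gr n R) (gr n B)) := by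
  obtain ⟨f, hf, hf1⟩ := word_test ptime_decide0
  refine ⟨f, hf, fun n R B h => ?_⟩
  rw [hf1]
  exact decide0_iff h

end Pool.Agent.Results.MP_a5655b_lc.SplitAlgorithm
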