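import Pool.Agent.Work.MP_a5655b_lc.Char

/-!
Supereulerian 2-edge-coloured complete multipartite graphs with at most one part that has more
than one vertex: a characterisation.

`IsClosedAltTrail`, `Supereulerian`, `EulerianFactor` and `OneBigPart` are defined in
`Pool.Agent.Work.MP_a5655b_lc.TrailDefs`.
-/

set_option autoImplicit false

namespace Pool.Agent.Results.MP_a5655b_lc.SplitUnion

open Pool.Agent.Work.MP_a5655b_lc

/-- **Theorem.** A 2-edge-coloured complete multipartite graph in which at most one part has more
than one vertex is supereulerian if and only if it has an eulerian factor and any two vertices are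
joined by a path all of whose edges are in eulerian factors. -/
theorem result (V : Type) [Finite V] [Nonempty V] (R B : SimpleGraph V) (h : OneBigPart R B) :
    Supereulerian R B ↔ (∃ F, EulerianFactor R B F) ∧ ∀ u v, Relation.ReflTransGen
      (fun x y => ∃ F, EulerianFactor R B F ∧ s(x, y) ∈ F) u v := by
  classical
  have := Fintype.ofFinite V
  exact supereulerian_iff_union h

end Pool.Agent.Results.MP_a5655b_lc.SplitUnion
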